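import Pool.Agent.MP_fa2b2f_an.Defs

open MeasureTheory Filter Topology Set
open scoped ENNReal NNReal

namespace Pool.Agent.MP_fa2b2f_an

variable {X : Type*} [MetricSpace X]

lemma lipOn_mono (f : X → ℝ) {s t : Set X} (h : s ⊆ t) : lipOn f s ≤ lipOn f t := by
  unfold lipOn
  refine iSup_le fun y => iSup_le fun hy => iSup_le fun z => iSup_le fun hz => ?_
  exact le_iSup_of_le y (le_iSup_of_le (h hy) (le_iSup_of_le z (le_iSup_of_le (h hz) le_rfl)))

lemma lipA_le_lipOn (f : X → ℝ) (x : X) {r : ℝ} (hr : 0 < r) :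
    lipA f x ≤ lipOn f (Metric.ball x r) :=
  iInf_le_of_le r (iInf_le_of_le hr le_rfl)

lemma lipOn_le_of_lipschitzOnWith {f : X → ℝ} {s : Set X} {K : ℝ≥0}
    (h : LipschitzOnWith K f s) : lipOn f s ≤ K := by
  unfold lipOn
  refine iSup_le fun y => iSup_le fun hy => iSup_le fun z => iSup_le fun hz => ?_
  exact ENNReal.div_le_of_le_mul (h hy hz)

lemma edist_le_lipOn_mul {f : X → ℝ} {s : Set X} {y z : X} (hy : y ∈ s) (hz : z ∈ s) :
    edist (f y) (f z) ≤ lipOn f s * edist y z := by
  by_cases hyz : y = z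
  · subst hyz; simp
  have h0 : edist y z ≠ 0 := by simpa [edist_eq_zero] using hyz
  have h1 : edist y z ≠ ∞ := edist_ne_top y z
  rw [← ENNReal.div_le_iff h0 h1]
  exact le_iSup_of_le y (le_iSup_of_le hy (le_iSup_of_le z (le_iSup_of_le hz le_rfl)))

lemma lipOn_add_le (f g : X → ℝ) (s : Set X) :
    lipOn (fun x => f x + g x) s ≤ lipOn f s + lipOn g s := by
  conv_lhs => unfold lipOn
  refine iSup_le fun y => iSup_le fun hy => iSup_le fun z => iSup_le fun hz => ?_
  by_cases hyz : y = z
  · subst hyz; simp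
  refine ENNReal.div_le_of_le_mul ?_
  calc edist (f y + g y) (f z + g z) ≤ edist (f y) (f z) + edist (g y) (g z) :=
        edist_add_add_le _ _ _ _
    _ ≤ lipOn f s * edist y z + lipOn g s * edist y z :=
        add_le_add (edist_le_lipOn_mul hy hz) (edist_le_lipOn_mul hy hz)
    _ = (lipOn f s + lipOn g s) * edist y z := by rw [add_mul]

lemma lipA_add_le (f g : X → ℝ) (x : X) :
    lipA (fun x => f x + g x) x ≤ lipA f x + lipA g x := by
  conv_rhs => unfold lipA
  simp only [ENNReal.iInf_add, ENNReal.add_iInf]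
  refine le_iInf fun r' => le_iInf fun hr' => le_iInf fun r => le_iInf fun hr => ?_
  calc lipA (fun x => f x + g x) x ≤ lipOn (fun x => f x + g x) (Metric.ball x (min r r')) :=
        lipA_le_lipOn _ _ (lt_min hr hr')
    _ ≤ lipOn f (Metric.ball x (min r r')) + lipOn g (Metric.ball x (min r r')) :=
        lipOn_add_le _ _ _
    _ ≤ _ := add_le_add (lipOn_mono _ (Metric.ball_subset_ball (min_le_left _ _)))
        (lipOn_mono _ (Metric.ball_subset_ball (min_le_right _ _)))

lemma lipA_zero (x : X) : lipA (fun _ : X => (0 : ℝ)) x = 0 := by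
  refine le_antisymm ?_ bot_le
  refine (lipA_le_lipOn _ x one_pos).trans ?_
  have := lipOn_le_of_lipschitzOnWith (f := fun _ : X => (0 : ℝ)) (s := Metric.ball x 1) (K := 0)
    (LipschitzWith.const 0).lipschitzOnWith
  simpa using this

lemma lipA_sum_le {ι : Type*} (s : Finset ι) (f : ι → X → ℝ) (x : X) :
    lipA (fun x => ∑ i ∈ s, f i x) x ≤ ∑ i ∈ s, lipA (f i) x := by
  classical
  induction s using Finset.induction_on with
  | empty => simp [lipA_zero]
  | insert a s ha ih =>
    simp only [Finset.sum_insert ha]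
    exact (lipA_add_le _ _ _).trans (add_le_add le_rfl ih)

lemma isOpen_lipA_lt (f : X → ℝ) (c : ℝ≥0∞) : IsOpen {x | lipA f x < c} := by
  rw [Metric.isOpen_iff]
  intro x hx
  have hx' : lipA f x < c := hx
  unfold lipA at hx'
  simp only [iInf_lt_iff] at hx'
  obtain ⟨r, hr, h⟩ := hx'
  refine ⟨r, hr, fun y hy => ?_⟩
  have hy' : dist y x < r := hy
  have hpos : 0 < r - dist y x := by linarith
  refine lt_of_le_of_lt ((lipA_le_lipOn f y hpos).trans (lipOn_mono f ?_)) h
  intro z hz
  have hz' : dist z y < r - dist y x := hz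
  have : dist z x ≤ dist z y + dist y x := dist_triangle _ _ _
  exact Metric.mem_ball.2 (by linarith)

lemma measurable_lipA [MeasurableSpace X] [BorelSpace X] (f : X → ℝ) : Measurable (lipA f) := by
  refine measurable_of_Iio fun c => ?_
  exact (isOpen_lipA_lt f c).measurableSet

lemma lipA_comp_isometry {Y : Type*} [MetricSpace Y] (f : Y → ℝ) {u : X → Y} (hu : Isometry u)
    (x : X) : lipA (fun t => f (u t)) x ≤ lipA f (u x) := by
  refine le_iInf fun r => le_iInf fun hr => (lipA_le_lipOn _ x hr).trans ?_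
  unfold lipOn
  refine iSup_le fun y => iSup_le fun hy => iSup_le fun z => iSup_le fun hz => ?_
  have hy' : u y ∈ Metric.ball (u x) r := by
    rw [Metric.mem_ball, hu.dist_eq]; exact hy
  have hz' : u z ∈ Metric.ball (u x) r := by
    rw [Metric.mem_ball, hu.dist_eq]; exact hz
  refine le_iSup_of_le (u y) (le_iSup_of_le hy' (le_iSup_of_le (u z) (le_iSup_of_le hz' ?_)))
  rw [hu.edist_eq]

/-- The perimeter only involves sequences on the whole space. -/
lemma per_eq [MeasurableSpace X] (m : Measure X) (E : Set X) :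
    per m E = tvOpen m (E.indicator fun _ => (1 : ℝ)) univ := by
  unfold per totalVar
  refine le_antisymm (iInf_le_of_le univ (iInf_le_of_le isOpen_univ (iInf_le_of_le subset_rfl le_rfl))) ?_
  refine le_iInf fun A => le_iInf fun _ => le_iInf fun hA => ?_
  rw [univ_subset_iff.1 hA]

lemma per_le_liminf [MeasurableSpace X] (m : Measure X) (E : Set X) (g : ℕ → X → ℝ)
    (hg : ∀ n, LocallyLipschitz (g n))
    (hconv : ConvL1Loc m univ g (E.indicator fun _ => (1 : ℝ))) :
    per m E ≤ liminf (fun n => ∫⁻ x, lipA (g n) x ∂m) atTop := by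
  rw [per_eq]
  unfold tvOpen
  refine iInf_le_of_le g (iInf_le_of_le (fun n => (hg n).locallyLipschitzOn) (iInf_le_of_le hconv ?_))
  simp

lemma le_per [MeasurableSpace X] (m : Measure X) (E : Set X) (c : ℝ≥0∞)
    (h : ∀ g : ℕ → X → ℝ, (∀ n, LocallyLipschitz (g n)) →
      ConvL1Loc m univ g (E.indicator fun _ => (1 : ℝ)) →
      c ≤ liminf (fun n => ∫⁻ x, lipA (g n) x ∂m) atTop) : c ≤ per m E := by
  rw [per_eq]
  unfold tvOpen
  refine le_iInf fun g => le_iInf fun hg => le_iInf fun hconv => ?_
  have := h g (fun n => locallyLipschitzOn_univ.1 (hg n)) hconv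
  simpa using this

/-- One-dimensional estimate: the slope controls increments. -/
lemma ofReal_abs_sub_le_lintegral_lipA {u : ℝ → ℝ} (hu : LocallyLipschitz u) {a b : ℝ}
    (hab : a ≤ b) : ENNReal.ofReal |u b - u a| ≤ ∫⁻ x in Ioc a b, lipA u x := by
  obtain ⟨K, hK⟩ := (hu.locallyLipschitzOn (s := Icc a b)).exists_lipschitzOnWith_of_compact
    isCompact_Icc
  have hac : AbsolutelyContinuousOnInterval u a b := by
    apply LipschitzOnWith.absolutelyContinuousOnInterval (K := K)
    rwa [uIcc_of_le hab]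
  have hint := hac.intervalIntegrable_deriv
  have h1 := hac.integral_deriv_eq_sub
  rw [← h1, intervalIntegral.integral_of_le hab]
  have hbound : ∀ x, ENNReal.ofReal ‖deriv u x‖ ≤ lipA u x := by
    intro x
    refine le_iInf fun r => le_iInf fun hr => ?_
    by_cases htop : lipOn u (Metric.ball x r) = ∞
    · rw [htop]; exact le_top
    have hC : ‖deriv u x‖ ≤ (lipOn u (Metric.ball x r)).toReal := by
      apply norm_deriv_le_of_lip' ENNReal.toReal_nonneg
      filter_upwards [Metric.ball_mem_nhds x hr] with y hy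
      have hx : x ∈ Metric.ball x r := Metric.mem_ball_self hr
      have h := edist_le_lipOn_mul (f := u) hy hx
      have h' := ENNReal.toReal_mono (by
        exact ENNReal.mul_ne_top htop (edist_ne_top _ _)) h
      rw [ENNReal.toReal_mul] at h'
      simpa [edist_dist, Real.dist_eq, ENNReal.toReal_ofReal] using h'
    rw [← ENNReal.ofReal_toReal htop]
    exact ENNReal.ofReal_le_ofReal hC
  calc ENNReal.ofReal |∫ x in Ioc a b, deriv u x|
      = ‖∫ x in Ioc a b, deriv u x‖ₑ := by
        rw [← ofReal_norm]; rfl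
    _ ≤ ∫⁻ x in Ioc a b, ‖deriv u x‖ₑ := enorm_integral_le_lintegral_enorm _
    _ ≤ ∫⁻ x in Ioc a b, lipA u x := by
        refine lintegral_mono fun x => ?_
        rw [← ofReal_norm]
        exact hbound x

end Pool.Agent.MP_fa2b2f_an
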