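import Mathlib

open MeasureTheory Filter Topology Set
open scoped ENNReal

namespace Pool.Agent.MP_fa2b2f_an

variable {X : Type*} [MetricSpace X] [MeasurableSpace X]

/-- The Lipschitz constant of `f` restricted to `s`, with values in `[0, ∞]`. -/
noncomputable def lipOn (f : X → ℝ) (s : Set X) : ℝ≥0∞ :=
  ⨆ (y : X) (_ : y ∈ s) (z : X) (_ : z ∈ s), edist (f y) (f z) / edist y z

/-- The asymptotic slope `lip_a(f)(x) = inf_{r > 0} Lip(f|_{B_r(x)})`. -/
noncomputable def lipA (f : X → ℝ) (x : X) : ℝ≥0∞ :=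
  ⨅ (r : ℝ) (_ : 0 < r), lipOn f (Metric.ball x r)

/-- Convergence `f_n → g` in `L^1_loc(m|_A)`: every point of `A` has a ball on whose
intersection with `A` the functions converge in `L^1(m)`. -/
def ConvL1Loc (m : Measure X) (A : Set X) (f : ℕ → X → ℝ) (g : X → ℝ) : Prop :=
  ∀ x ∈ A, ∃ r : ℝ, 0 < r ∧
    Tendsto (fun n => ∫⁻ z in Metric.ball x r ∩ A, edist (f n z) (g z) ∂m) atTop (𝓝 0)

/-- `|Df|(A)` for an open set `A`: the relaxation of `∫_A lip_a(f_n) dm` over sequences of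
functions that are locally Lipschitz on `A` and converge to `f` in `L^1_loc(m|_A)`. -/
noncomputable def tvOpen (m : Measure X) (f : X → ℝ) (A : Set X) : ℝ≥0∞ :=
  ⨅ (g : ℕ → X → ℝ) (_ : ∀ n, LocallyLipschitzOn A (g n)) (_ : ConvL1Loc m A g f),
    liminf (fun n => ∫⁻ x in A, lipA (g n) x ∂m) atTop

/-- `|Df|(B)`, the infimum of `|Df|(A)` over open sets `A ⊇ B`. -/
noncomputable def totalVar (m : Measure X) (f : X → ℝ) (B : Set X) : ℝ≥0∞ :=
  ⨅ (A : Set X) (_ : IsOpen A) (_ : B ⊆ A), tvOpen m f A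

/-- The perimeter `Per(E) = |Dχ_E|(X)`. -/
noncomputable def per (m : Measure X) (E : Set X) : ℝ≥0∞ :=
  totalVar m (E.indicator fun _ => (1 : ℝ)) univ

/-- `M_λ(A) = Per(A) + λ m(Ω \ A)`. -/
noncomputable def funM (m : Measure X) (Ω : Set X) (lam : ℝ) (A : Set X) : ℝ≥0∞ :=
  per m A + ENNReal.ofReal lam * m (Ω \ A)

/-- `M~_λ(A) = Per(A) + λ m(Ω Δ A)`. -/
noncomputable def funMt (m : Measure X) (Ω : Set X) (lam : ℝ) (A : Set X) : ℝ≥0∞ :=
  per m A + ENNReal.ofReal lam * m (symmDiff Ω A)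

/-- `E` minimises `M_λ` among the Borel subsets of `Ω`. -/
def IsMinM (m : Measure X) (Ω : Set X) (lam : ℝ) (E : Set X) : Prop :=
  MeasurableSet E ∧ E ⊆ Ω ∧
    ∀ A : Set X, MeasurableSet A → A ⊆ Ω → funM m Ω lam E ≤ funM m Ω lam A

/-- `E` minimises `M~_λ` among the Borel subsets of `X`. -/
def IsMinMt (m : Measure X) (Ω : Set X) (lam : ℝ) (E : Set X) : Prop :=
  MeasurableSet E ∧ ∀ A : Set X, MeasurableSet A → funMt m Ω lam E ≤ funMt m Ω lam A

/-- `E` has a closed representative. -/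
def HasClosedRep (m : Measure X) (E : Set X) : Prop :=
  ∃ C : Set X, IsClosed C ∧ m (symmDiff E C) = 0

end Pool.Agent.MP_fa2b2f_an
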