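import Pool.Agent.MP_fa2b2f_an.Basic

open MeasureTheory Filter Topology Set
open scoped ENNReal NNReal

namespace Pool.Agent.MP_fa2b2f_an

variable {X : Type*} [MetricSpace X]

/-- Radial cut-off. -/
noncomputable def bump (q : X) (r1 r2 : ℝ) (z : X) : ℝ :=
  max 0 (min 1 ((r2 - dist z q) / (r2 - r1)))

lemma bump_nonneg (q : X) (r1 r2 : ℝ) (z : X) : 0 ≤ bump q r1 r2 z := le_max_left _ _

lemma bump_le_one (q : X) (r1 r2 : ℝ) (z : X) : bump q r1 r2 z ≤ 1 :=
  max_le zero_le_one (min_le_left _ _)

lemma bump_eq_one {q : X} {r1 r2 : ℝ} (h : r1 < r2) {z : X} (hz : dist z q ≤ r1) :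
    bump q r1 r2 z = 1 := by
  have h0 : 0 < r2 - r1 := by linarith
  have : 1 ≤ (r2 - dist z q) / (r2 - r1) := by
    rw [le_div_iff₀ h0]; linarith
  unfold bump
  rw [min_eq_left this, max_eq_right zero_le_one]

lemma bump_eq_zero {q : X} {r1 r2 : ℝ} (h : r1 < r2) {z : X} (hz : r2 ≤ dist z q) :
    bump q r1 r2 z = 0 := by
  have h0 : 0 < r2 - r1 := by linarith
  have : (r2 - dist z q) / (r2 - r1) ≤ 0 := div_nonpos_of_nonpos_of_nonneg (by linarith) h0.le
  unfold bump
  exact max_eq_left ((min_le_right _ _).trans this)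

lemma lipschitz_bump (q : X) {r1 r2 : ℝ} (h : r1 < r2) :
    LipschitzWith (Real.toNNReal (1 / (r2 - r1))) (bump q r1 r2) := by
  have h0 : 0 < r2 - r1 := by linarith
  have h1 : LipschitzWith (Real.toNNReal (1 / (r2 - r1)))
      (fun z : X => (r2 - dist z q) / (r2 - r1)) := by
    refine LipschitzWith.of_dist_le_mul fun z w => ?_
    rw [Real.coe_toNNReal _ (by positivity), Real.dist_eq]
    have : (r2 - dist z q) / (r2 - r1) - (r2 - dist w q) / (r2 - r1) =
        1 / (r2 - r1) * (dist w q - dist z q) := by ring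
    rw [this, abs_mul, abs_of_nonneg (by positivity : (0 : ℝ) ≤ 1 / (r2 - r1))]
    refine mul_le_mul_of_nonneg_left ?_ (by positivity)
    rw [dist_comm z w]
    exact abs_dist_sub_le w z q
  exact (h1.const_min 1).const_max 0

lemma lipA_eq_zero_of_eqOn {f : X → ℝ} {x : X} {U : Set X} (hU : IsOpen U) (hx : x ∈ U) {c : ℝ}
    (h : ∀ z ∈ U, f z = c) : lipA f x = 0 := by
  obtain ⟨r, hr, hrU⟩ := Metric.isOpen_iff.1 hU x hx
  refine le_antisymm ((lipA_le_lipOn f x hr).trans ?_) bot_le
  have : LipschitzOnWith 0 f (Metric.ball x r) := by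
    intro y hy z hz
    rw [h y (hrU hy), h z (hrU hz)]; simp
  simpa using lipOn_le_of_lipschitzOnWith this

lemma lipA_bump_le (q : X) {r1 r2 : ℝ} (h : r1 < r2) (z : X) :
    lipA (bump q r1 r2) z ≤ (Metric.closedBall q r2 \ Metric.ball q r1).indicator
      (fun _ => ENNReal.ofReal (1 / (r2 - r1))) z := by
  by_cases h1 : dist z q < r1
  · have : lipA (bump q r1 r2) z = 0 :=
      lipA_eq_zero_of_eqOn (Metric.isOpen_ball (x := q) (ε := r1)) h1 (c := 1)
        fun w hw => bump_eq_one h (le_of_lt hw)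
    rw [this]; exact bot_le
  by_cases h2 : r2 < dist z q
  · have : lipA (bump q r1 r2) z = 0 := by
      refine lipA_eq_zero_of_eqOn (U := (Metric.closedBall q r2)ᶜ)
        Metric.isClosed_closedBall.isOpen_compl ?_ (c := 0) ?_
      · simpa using h2
      · intro w hw
        have : r2 < dist w q := by simpa using hw
        exact bump_eq_zero h this.le
    rw [this]; exact bot_le
  have hmem : z ∈ Metric.closedBall q r2 \ Metric.ball q r1 := by
    refine ⟨?_, ?_⟩
    · simpa using not_lt.1 h2
    · simpa using not_lt.1 h1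
  rw [indicator_of_mem hmem]
  refine (lipA_le_lipOn _ z one_pos).trans ?_
  exact lipOn_le_of_lipschitzOnWith (lipschitz_bump q h).lipschitzOnWith

variable [MeasurableSpace X] [BorelSpace X]

/-- Points are approximable: there are locally Lipschitz functions that are `L^1`-close to
the indicator of the point and have small total slope. -/
def PointApprox (m : Measure X) (x : X) : Prop :=
  ∀ ε : ℝ, 0 < ε → ∃ φ : X → ℝ, LocallyLipschitz φ ∧ ∫⁻ z, lipA φ z ∂m ≤ ENNReal.ofReal ε ∧
    ∫⁻ z, edist (φ z) (({x} : Set X).indicator (fun _ => (1 : ℝ)) z) ∂m ≤ ENNReal.ofReal ε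

lemma pointApprox_of_annuli (m : Measure X) (x : X)
    (hloc : ∃ r : ℝ, 0 < r ∧ m (Metric.closedBall x r) ≠ ∞)
    (h : ∀ ε : ℝ, 0 < ε → ∃ r1 r2 : ℝ, 0 < r1 ∧ r1 < r2 ∧ r2 < ε ∧
      m (Metric.closedBall x r2 \ Metric.ball x r1) ≤ ENNReal.ofReal (ε * (r2 - r1))) :
    PointApprox m x := by
  intro ε hε
  -- small punctured balls have small measure
  obtain ⟨r0, hr0, hr0m⟩ : ∃ r0 : ℝ, 0 < r0 ∧
      m (Metric.closedBall x r0 \ {x}) ≤ ENNReal.ofReal ε := by
    obtain ⟨r, hr, hrm⟩ := hloc
    have hanti : Antitone fun n : ℕ => Metric.closedBall x (r / (n + 1)) \ {x} := by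
      intro a b hab
      refine sdiff_subset_sdiff_left (Metric.closedBall_subset_closedBall ?_)
      have : (a : ℝ) ≤ b := by exact_mod_cast hab
      gcongr
    have hlim := tendsto_measure_iInter_atTop (μ := m)
      (s := fun n : ℕ => Metric.closedBall x (r / (n + 1)) \ {x})
      (fun n => (Metric.isClosed_closedBall.measurableSet.diff
        (measurableSet_singleton x)).nullMeasurableSet) hanti
      ⟨0, ne_top_of_le_ne_top hrm (measure_mono (by simp))⟩
    have hempty : ⋂ n : ℕ, Metric.closedBall x (r / ((n : ℝ) + 1)) \ {x} = ∅ := by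
      rw [eq_empty_iff_forall_notMem]
      intro z hz
      rw [mem_iInter] at hz
      have hzx : z ≠ x := (hz 0).2
      have hd : 0 < dist z x := dist_pos.2 hzx
      obtain ⟨n, hn⟩ := exists_nat_gt (r / dist z x)
      have h1 : dist z x ≤ r / (n + 1) := (hz n).1
      have h2 : r < n * dist z x := by
        rwa [div_lt_iff₀ hd] at hn
      rw [le_div_iff₀ (by positivity)] at h1
      nlinarith
    rw [hempty, measure_empty] at hlim
    have := hlim.eventually_lt_const (ENNReal.ofReal_pos.2 hε)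
    obtain ⟨n, hn⟩ := this.exists
    exact ⟨r / (n + 1), by positivity, hn.le⟩
  obtain ⟨r1, r2, hr1, hr12, hr2, hm⟩ := h (min ε r0) (lt_min hε hr0)
  refine ⟨bump x r1 r2, (lipschitz_bump x hr12).locallyLipschitz, ?_, ?_⟩
  · calc ∫⁻ z, lipA (bump x r1 r2) z ∂m
        ≤ ∫⁻ z, (Metric.closedBall x r2 \ Metric.ball x r1).indicator
            (fun _ => ENNReal.ofReal (1 / (r2 - r1))) z ∂m :=
          lintegral_mono fun z => lipA_bump_le x hr12 z
      _ = ENNReal.ofReal (1 / (r2 - r1)) * m (Metric.closedBall x r2 \ Metric.ball x r1) := by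
          rw [lintegral_indicator
            (Metric.isClosed_closedBall.measurableSet.diff Metric.isOpen_ball.measurableSet)]
          simp
      _ ≤ ENNReal.ofReal (1 / (r2 - r1)) * ENNReal.ofReal (min ε r0 * (r2 - r1)) := by
          gcongr
      _ = ENNReal.ofReal (min ε r0) := by
          rw [← ENNReal.ofReal_mul (by
            have : 0 < r2 - r1 := by linarith
            positivity)]
          congr 1
          have : r2 - r1 ≠ 0 := by linarith
          field_simp
      _ ≤ ENNReal.ofReal ε := ENNReal.ofReal_le_ofReal (min_le_left _ _)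
  · calc ∫⁻ z, edist (bump x r1 r2 z) (({x} : Set X).indicator (fun _ => (1 : ℝ)) z) ∂m
        ≤ ∫⁻ z, (Metric.closedBall x r0 \ {x}).indicator (fun _ => (1 : ℝ≥0∞)) z ∂m := by
          refine lintegral_mono fun z => ?_
          by_cases hzx : z = x
          · subst hzx
            rw [bump_eq_one hr12 (by simpa using hr1.le)]
            simp
          by_cases hz : dist z x ≤ r0
          · have hmem : z ∈ Metric.closedBall x r0 \ {x} := ⟨hz, hzx⟩
            rw [indicator_of_mem hmem, indicator_of_notMem (by simpa using hzx)]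
            rw [edist_dist, Real.dist_eq, sub_zero, abs_of_nonneg (bump_nonneg _ _ _ _)]
            exact ENNReal.ofReal_le_one.2 (bump_le_one _ _ _ _)
          · have hz' : r0 < dist z x := not_le.1 hz
            have hb : bump x r1 r2 z = 0 := by
              refine bump_eq_zero hr12 ?_
              have := min_le_right ε r0
              linarith
            rw [hb, indicator_of_notMem (by simpa using hzx)]
            simp
      _ = m (Metric.closedBall x r0 \ {x}) := by
          rw [lintegral_indicator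
            (Metric.isClosed_closedBall.measurableSet.diff (measurableSet_singleton x))]
          simp
      _ ≤ ENNReal.ofReal ε := hr0m

lemma edist_finsetSum_le {ι : Type*} (s : Finset ι) (f g : ι → ℝ) :
    edist (∑ i ∈ s, f i) (∑ i ∈ s, g i) ≤ ∑ i ∈ s, edist (f i) (g i) := by
  classical
  induction s using Finset.induction_on with
  | empty => simp
  | insert a s ha ih =>
    simp only [Finset.sum_insert ha]
    exact (edist_add_add_le _ _ _ _).trans (add_le_add le_rfl ih)

omit [MeasurableSpace X] [BorelSpace X] in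
lemma locallyLipschitz_sum {ι : Type*} (s : Finset ι) (f : ι → X → ℝ)
    (h : ∀ i ∈ s, LocallyLipschitz (f i)) : LocallyLipschitz (fun x => ∑ i ∈ s, f i x) := by
  classical
  induction s using Finset.induction_on with
  | empty => simpa using LocallyLipschitz.const (0 : ℝ)
  | insert a s ha ih =>
    simp only [Finset.sum_insert ha]
    exact (h a (Finset.mem_insert_self _ _)).add (ih fun i hi => h i (Finset.mem_insert_of_mem hi))

/-- A countable set of approximable points with finite measure has zero perimeter. -/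
lemma per_eq_zero_of_countable (m : Measure X) (q : ℕ → X) (E : Set X) (hE : E ⊆ range q)
    (hEmeas : MeasurableSet E) (hfin : m E ≠ ∞) (happ : ∀ x ∈ E, PointApprox m x) :
    per m E = 0 := by
  classical
  have hcnt : E.Countable := (countable_range q).mono hE
  set T : ℕ → Finset X := fun k => ((Finset.range k).image q).filter (· ∈ E) with hT
  have hTE : ∀ k, ∀ x ∈ T k, x ∈ E := by
    intro k x hx
    simp only [hT, Finset.mem_filter] at hx
    exact hx.2
  have hTcard : ∀ k, (T k).card ≤ k := by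
    intro k
    calc (T k).card ≤ ((Finset.range k).image q).card := Finset.card_filter_le _ _
      _ ≤ (Finset.range k).card := Finset.card_image_le
      _ = k := Finset.card_range k
  have hex : ∀ k : ℕ, ∀ x : X, ∃ φ : X → ℝ, LocallyLipschitz φ ∧ (x ∈ E →
      ∫⁻ z, lipA φ z ∂m ≤ ENNReal.ofReal (1 / ((k : ℝ) + 1) ^ 2) ∧
      ∫⁻ z, edist (φ z) (({x} : Set X).indicator (fun _ => (1 : ℝ)) z) ∂m ≤
        ENNReal.ofReal (1 / ((k : ℝ) + 1) ^ 2)) := by
    intro k x
    by_cases hx : x ∈ E
    · obtain ⟨φ, h1, h2, h3⟩ := happ x hx (1 / ((k : ℝ) + 1) ^ 2) (by positivity)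
      exact ⟨φ, h1, fun _ => ⟨h2, h3⟩⟩
    · exact ⟨fun _ => 0, LocallyLipschitz.const 0, fun h => absurd h hx⟩
  choose φ hφ1 hφ2 using hex
  set g : ℕ → X → ℝ := fun k z => ∑ x ∈ T k, φ k x z with hg
  have hgl : ∀ k, LocallyLipschitz (g k) := fun k =>
    locallyLipschitz_sum _ _ fun x _ => hφ1 k x
  have hcount : ∀ k : ℕ, (k : ℝ≥0∞) * ENNReal.ofReal (1 / ((k : ℝ) + 1) ^ 2) ≤
      ENNReal.ofReal (1 / ((k : ℝ) + 1)) := by
    intro k
    rw [← ENNReal.ofReal_natCast, ← ENNReal.ofReal_mul (by positivity)]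
    refine ENNReal.ofReal_le_ofReal ?_
    rw [mul_one_div, div_le_div_iff₀ (by positivity) (by positivity)]
    nlinarith [Nat.cast_nonneg (α := ℝ) k]
  have hsum : ∀ k : ℕ, ∀ a : X → ℝ≥0∞, (∀ x ∈ T k, a x ≤ ENNReal.ofReal (1 / ((k : ℝ) + 1) ^ 2)) →
      ∑ x ∈ T k, a x ≤ ENNReal.ofReal (1 / ((k : ℝ) + 1)) := by
    intro k a ha
    calc ∑ x ∈ T k, a x ≤ ∑ x ∈ T k, ENNReal.ofReal (1 / ((k : ℝ) + 1) ^ 2) :=
          Finset.sum_le_sum ha
      _ = (T k).card * ENNReal.ofReal (1 / ((k : ℝ) + 1) ^ 2) := by simp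
      _ ≤ k * ENNReal.ofReal (1 / ((k : ℝ) + 1) ^ 2) := by
          gcongr
          exact hTcard k
      _ ≤ _ := hcount k
  have hzero : Tendsto (fun k : ℕ => ENNReal.ofReal (1 / ((k : ℝ) + 1))) atTop (𝓝 0) := by
    have := ENNReal.tendsto_ofReal tendsto_one_div_add_atTop_nhds_zero_nat
    simpa using this
  -- slopes
  have hslope : ∀ k, ∫⁻ z, lipA (g k) z ∂m ≤ ENNReal.ofReal (1 / ((k : ℝ) + 1)) := by
    intro k
    calc ∫⁻ z, lipA (g k) z ∂m ≤ ∫⁻ z, ∑ x ∈ T k, lipA (φ k x) z ∂m :=
          lintegral_mono fun z => lipA_sum_le _ _ _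
      _ = ∑ x ∈ T k, ∫⁻ z, lipA (φ k x) z ∂m :=
          lintegral_finsetSum _ fun x _ => measurable_lipA _
      _ ≤ _ := hsum k _ fun x hx => (hφ2 k x (hTE k x hx)).1
  -- L^1 distance
  have hL1 : ∀ k, ∫⁻ z, edist (g k z) (E.indicator (fun _ => (1 : ℝ)) z) ∂m ≤
      ENNReal.ofReal (1 / ((k : ℝ) + 1)) + m (E \ T k) := by
    intro k
    have hpt : ∀ z, edist (g k z) (E.indicator (fun _ => (1 : ℝ)) z) ≤
        ∑ x ∈ T k, edist (φ k x z) (({x} : Set X).indicator (fun _ => (1 : ℝ)) z) +
        (E \ T k).indicator (fun _ => (1 : ℝ≥0∞)) z := by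
      intro z
      have h1 : edist (g k z) (∑ x ∈ T k, ({x} : Set X).indicator (fun _ => (1 : ℝ)) z) ≤
          ∑ x ∈ T k, edist (φ k x z) (({x} : Set X).indicator (fun _ => (1 : ℝ)) z) :=
        edist_finsetSum_le (T k) (fun x => φ k x z)
          (fun x => ({x} : Set X).indicator (fun _ => (1 : ℝ)) z)
      have h2 : edist (∑ x ∈ T k, ({x} : Set X).indicator (fun _ => (1 : ℝ)) z)
          (E.indicator (fun _ => (1 : ℝ)) z) ≤
          (E \ T k).indicator (fun _ => (1 : ℝ≥0∞)) z := by
        have hs : ∑ x ∈ T k, ({x} : Set X).indicator (fun _ => (1 : ℝ)) z =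
            if z ∈ T k then 1 else 0 := by
          simp [indicator_apply]
        rw [hs]
        by_cases hz : z ∈ T k
        · rw [if_pos hz, indicator_of_mem (hTE k z hz)]; simp
        · rw [if_neg hz]
          by_cases hzE : z ∈ E
          · have hmem : z ∈ E \ T k := ⟨hzE, by simpa using hz⟩
            rw [indicator_of_mem hzE, indicator_of_mem hmem]
            simp [edist_dist]
          · rw [indicator_of_notMem hzE]; simp
      exact (edist_triangle _ _ _).trans (add_le_add h1 h2)
    have hTm : MeasurableSet (E \ T k) := hEmeas.diff (T k).measurableSet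
    calc ∫⁻ z, edist (g k z) (E.indicator (fun _ => (1 : ℝ)) z) ∂m
        ≤ ∫⁻ z, (∑ x ∈ T k, edist (φ k x z) (({x} : Set X).indicator (fun _ => (1 : ℝ)) z) +
          (E \ T k).indicator (fun _ => (1 : ℝ≥0∞)) z) ∂m := lintegral_mono hpt
      _ = (∫⁻ z, ∑ x ∈ T k, edist (φ k x z) (({x} : Set X).indicator (fun _ => (1 : ℝ)) z) ∂m) +
          m (E \ T k) := by
          rw [lintegral_add_right _ (measurable_const.indicator hTm), lintegral_indicator hTm]
          simp
      _ ≤ _ := by
          refine add_le_add ?_ le_rfl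
          rw [lintegral_finsetSum]
          · exact hsum k _ fun x hx => (hφ2 k x (hTE k x hx)).2
          · intro x _
            exact ((hφ1 k x).continuous.measurable).edist
              (measurable_const.indicator (measurableSet_singleton x))
  have htail : Tendsto (fun k => m (E \ T k)) atTop (𝓝 0) := by
    have hanti : Antitone fun k => E \ (T k : Set X) := by
      intro a b hab
      refine sdiff_subset_sdiff_right ?_
      intro x hx
      simp only [hT, Finset.coe_filter, Finset.mem_image, Finset.mem_range, mem_ofPred_eq] at hx ⊢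
      obtain ⟨⟨i, hi, rfl⟩, h2⟩ := hx
      exact ⟨⟨i, lt_of_lt_of_le hi hab, rfl⟩, h2⟩
    have hlim := tendsto_measure_iInter_atTop (μ := m) (s := fun k => E \ (T k : Set X))
      (fun k => (hEmeas.diff (T k).measurableSet).nullMeasurableSet) hanti
      ⟨0, ne_top_of_le_ne_top hfin (measure_mono sdiff_subset)⟩
    have hempty : ⋂ k : ℕ, E \ (T k : Set X) = ∅ := by
      rw [eq_empty_iff_forall_notMem]
      intro z hz
      rw [mem_iInter] at hz
      have hzE : z ∈ E := (hz 0).1
      obtain ⟨i, hi⟩ := hE hzE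
      refine (hz (i + 1)).2 ?_
      simp only [hT, Finset.coe_filter, Finset.mem_image, Finset.mem_range, mem_ofPred_eq]
      exact ⟨⟨i, Nat.lt_succ_self i, hi⟩, hzE⟩
    rwa [hempty, measure_empty] at hlim
  have hconv : ConvL1Loc m univ g (E.indicator fun _ => (1 : ℝ)) := by
    intro x _
    refine ⟨1, one_pos, ?_⟩
    have hub : Tendsto (fun k : ℕ => ENNReal.ofReal (1 / ((k : ℝ) + 1)) + m (E \ T k)) atTop
        (𝓝 0) := by
      simpa using hzero.add htail
    exact tendsto_of_tendsto_of_tendsto_of_le_of_le tendsto_const_nhds hub (fun _ => bot_le)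
      fun k => (setLIntegral_le_lintegral _ _).trans (hL1 k)
  refine le_antisymm ((per_le_liminf m E g hgl hconv).trans ?_) bot_le
  have : Tendsto (fun k => ∫⁻ z, lipA (g k) z ∂m) atTop (𝓝 0) :=
    tendsto_of_tendsto_of_tendsto_of_le_of_le tendsto_const_nhds hzero (fun _ => bot_le) hslope
  rw [this.liminf_eq]

end Pool.Agent.MP_fa2b2f_an
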