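import Pool.Agent.MP_fa2b2f_an.Slice
import Pool.Agent.MP_fa2b2f_an.Zero

open MeasureTheory Filter Topology Set
open scoped ENNReal NNReal

namespace Pool.Agent.MP_fa2b2f_an

/-- The purely atomic part: mass `2^{-(n+1)}` at the `n`-th point of a dense sequence. -/
noncomputable def atoms : Measure ℂ :=
  Measure.sum fun n : ℕ =>
    ((1 / 2 : ℝ≥0∞) ^ (n + 1)) • Measure.dirac (TopologicalSpace.denseSeq ℂ n)

/-- Lebesgue measure plus the atoms. -/
noncomputable def planeMeas : Measure ℂ := volume + atoms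

instance : IsFiniteMeasure atoms := by
  refine ⟨?_⟩
  unfold atoms
  rw [Measure.sum_apply _ MeasurableSet.univ]
  simp only [Measure.smul_apply, Measure.dirac_apply_of_mem (mem_univ _), smul_eq_mul, mul_one]
  simp only [pow_succ]
  rw [ENNReal.tsum_mul_right, ENNReal.tsum_geometric]
  norm_num
  exact ENNReal.mul_lt_top (by simp) (by simp)

/-- The set of atoms. -/
def atomSet : Set ℂ := range (TopologicalSpace.denseSeq ℂ)

lemma countable_atomSet : atomSet.Countable := countable_range _

lemma dense_atomSet : Dense atomSet := TopologicalSpace.denseRange_denseSeq ℂ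

lemma atoms_compl : atoms atomSetᶜ = 0 := by
  unfold atoms
  rw [Measure.sum_apply _ countable_atomSet.measurableSet.compl]
  simp only [Measure.smul_apply, smul_eq_mul]
  refine ENNReal.tsum_eq_zero.2 fun n => ?_
  rw [Measure.dirac_apply' _ countable_atomSet.measurableSet.compl]
  rw [indicator_of_notMem]
  · simp
  · simp [atomSet]

lemma atoms_singleton_pos {z : ℂ} (hz : z ∈ atomSet) : 0 < atoms {z} := by
  obtain ⟨n, rfl⟩ := hz
  unfold atoms
  rw [Measure.sum_apply _ (measurableSet_singleton _)]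
  refine lt_of_lt_of_le ?_ (ENNReal.le_tsum n)
  simp only [Measure.smul_apply, smul_eq_mul]
  rw [Measure.dirac_apply_of_mem (mem_singleton _), mul_one]
  refine ENNReal.pow_pos ?_ _
  norm_num

lemma exists_radius (ρ : Measure ℝ) [IsFiniteMeasure ρ] (hρ : ρ ⟂ₘ volume) {ε : ℝ} (hε : 0 < ε)
    {R : ℝ} (hR : 0 < R) : ∃ r ∈ Ioo 0 R, ∀ᶠ δ in 𝓝[>] (0 : ℝ),
      ρ (Metric.closedBall r δ) ≤ ENNReal.ofReal ε * volume (Metric.closedBall r δ) := by
  have h1 := Besicovitch.ae_tendsto_rnDeriv ρ (volume : Measure ℝ)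
  have h2 := hρ.rnDeriv_ae_eq_zero
  have h3 : ∀ᵐ r : ℝ, Tendsto (fun δ => ρ (Metric.closedBall r δ) /
      volume (Metric.closedBall r δ)) (𝓝[>] 0) (𝓝 0) := by
    filter_upwards [h1, h2] with r hr1 hr2
    rw [hr2] at hr1
    exact hr1
  have hpos : volume (Ioo 0 R) ≠ 0 := by
    rw [Real.volume_Ioo]
    simpa using hR
  obtain ⟨r, hr, hrt⟩ : ∃ r ∈ Ioo 0 R, Tendsto (fun δ => ρ (Metric.closedBall r δ) /
      volume (Metric.closedBall r δ)) (𝓝[>] 0) (𝓝 0) := by
    by_contra hcon
    push Not at hcon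
    refine hpos (measure_mono_null (fun r hr => ?_) h3)
    exact hcon r hr
  refine ⟨r, hr, ?_⟩
  have h4 := hrt.eventually_lt_const (ENNReal.ofReal_pos.2 hε)
  filter_upwards [h4, self_mem_nhdsWithin] with δ hδ hδ0
  have hδ0' : 0 < δ := hδ0
  have hv0 : volume (Metric.closedBall r δ) ≠ 0 := by
    rw [Real.volume_closedBall]
    simp [hδ0']
  have hv1 : volume (Metric.closedBall r δ) ≠ ∞ := by
    rw [Real.volume_closedBall]
    exact ENNReal.ofReal_ne_top
  exact (ENNReal.div_le_iff hv0 hv1).1 hδ.le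

lemma annuli (x : ℂ) (ε : ℝ) (hε : 0 < ε) : ∃ r1 r2 : ℝ, 0 < r1 ∧ r1 < r2 ∧ r2 < ε ∧
    planeMeas (Metric.closedBall x r2 \ Metric.ball x r1) ≤ ENNReal.ofReal (ε * (r2 - r1)) := by
  have hdm : Measurable fun z : ℂ => dist z x := by fun_prop
  set ρ : Measure ℝ := atoms.map fun z => dist z x with hρdef
  have hfin : IsFiniteMeasure ρ := by
    rw [hρdef]; infer_instance
  have hT : ((fun z => dist z x) '' atomSet).Countable := countable_atomSet.image _
  have hsing : ρ ⟂ₘ volume := by
    refine ⟨((fun z => dist z x) '' atomSet)ᶜ, hT.measurableSet.compl, ?_, ?_⟩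
    · rw [hρdef, Measure.map_apply hdm hT.measurableSet.compl]
      refine measure_mono_null ?_ atoms_compl
      intro z hz hzS
      exact hz ⟨z, hzS, rfl⟩
    · rw [compl_compl]
      exact hT.measure_zero _
  obtain ⟨r, ⟨hr0, hrR⟩, hev⟩ := exists_radius ρ hsing (ε := ε / 2) (by positivity)
    (R := ε / 16) (by positivity)
  have hev2 : ∀ᶠ δ in 𝓝[>] (0 : ℝ), δ < r := by
    have : Iio r ∈ 𝓝 (0 : ℝ) := Iio_mem_nhds hr0
    exact mem_nhdsWithin_of_mem_nhds this
  have hev3 : ∀ᶠ δ in 𝓝[>] (0 : ℝ), 0 < δ := self_mem_nhdsWithin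
  obtain ⟨δ, hδ1, hδr, hδ0⟩ := (hev.and (hev2.and hev3)).exists
  refine ⟨r - δ, r + δ, by linarith, by linarith, by linarith, ?_⟩
  have hsub : Metric.closedBall x (r + δ) \ Metric.ball x (r - δ) =
      (fun z => dist z x) ⁻¹' Metric.closedBall r δ := by
    ext z
    simp only [Set.mem_sdiff, Metric.mem_closedBall, Metric.mem_ball, mem_preimage, Real.dist_eq,
      abs_le, not_lt]
    constructor
    · rintro ⟨h1, h2⟩; constructor <;> linarith
    · rintro ⟨h1, h2⟩; constructor <;> linarith
  have hatoms : atoms (Metric.closedBall x (r + δ) \ Metric.ball x (r - δ)) ≤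
      ENNReal.ofReal (ε * δ) := by
    rw [hsub, ← Measure.map_apply hdm Metric.isClosed_closedBall.measurableSet]
    refine hδ1.trans ?_
    rw [Real.volume_closedBall, ← ENNReal.ofReal_mul (by positivity)]
    refine ENNReal.ofReal_le_ofReal ?_
    linarith
  have hvol : volume (Metric.closedBall x (r + δ) \ Metric.ball x (r - δ)) ≤
      ENNReal.ofReal (ε * δ) := by
    have hsub' : Metric.ball x (r - δ) ⊆ Metric.closedBall x (r + δ) :=
      Metric.ball_subset_closedBall.trans (Metric.closedBall_subset_closedBall (by linarith))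
    rw [measure_sdiff hsub' Metric.isOpen_ball.measurableSet.nullMeasurableSet (by
      rw [Complex.volume_ball]
      exact ENNReal.mul_ne_top (by simp) (by simp))]
    rw [Complex.volume_ball, Complex.volume_closedBall]
    have hpi : ((NNReal.pi : ℝ≥0) : ℝ≥0∞) = ENNReal.ofReal Real.pi := by
      rw [ENNReal.ofReal]
      congr 1
      ext
      simp [Real.pi_pos.le]
    rw [hpi, ← ENNReal.ofReal_pow (by linarith), ← ENNReal.ofReal_pow (by linarith),
      ← ENNReal.ofReal_mul (by positivity), ← ENNReal.ofReal_mul (by positivity),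
      ← ENNReal.ofReal_sub _ (by positivity)]
    refine ENNReal.ofReal_le_ofReal ?_
    have h1 : (r + δ) ^ 2 * Real.pi - (r - δ) ^ 2 * Real.pi = 4 * r * δ * Real.pi := by ring
    rw [h1]
    have h2 : Real.pi ≤ 4 := Real.pi_le_four
    have h3 : 4 * r * δ * Real.pi ≤ 4 * r * δ * 4 := by
      refine mul_le_mul_of_nonneg_left h2 (by positivity)
    have h4 : 4 * r * δ * 4 = 16 * r * δ := by ring
    have h5 : 16 * r * δ ≤ ε * δ := by
      refine mul_le_mul_of_nonneg_right ?_ hδ0.le
      linarith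
    linarith
  unfold planeMeas
  rw [Measure.add_apply]
  refine (add_le_add hvol hatoms).trans ?_
  rw [← ENNReal.ofReal_add (by positivity) (by positivity)]
  refine ENNReal.ofReal_le_ofReal ?_
  linarith

lemma planeMeas_lt_top {s : Set ℂ} (hs : Bornology.IsBounded s) : planeMeas s < ∞ := by
  unfold planeMeas
  rw [Measure.add_apply]
  exact ENNReal.add_lt_top.2 ⟨hs.measure_lt_top, measure_lt_top _ _⟩

lemma planeMeas_pos {U : Set ℂ} (hU : IsOpen U) (hne : U.Nonempty) : 0 < planeMeas U := by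
  unfold planeMeas
  rw [Measure.add_apply]
  exact lt_of_lt_of_le (hU.measure_pos volume hne) le_self_add

lemma volume_le_planeMeas : (volume : Measure ℂ) ≤ planeMeas := by
  unfold planeMeas
  exact Measure.le_add_right le_rfl

lemma pointApprox_plane (x : ℂ) : PointApprox planeMeas x :=
  pointApprox_of_annuli _ x ⟨1, one_pos, (planeMeas_lt_top Metric.isBounded_closedBall).ne⟩
    (annuli x)

/-- The competitor: all atoms inside `Ω`. -/
def atomsIn (Ω : Set ℂ) : Set ℂ := atomSet ∩ Ω

lemma measurableSet_atomsIn (Ω : Set ℂ) : MeasurableSet (atomsIn Ω) :=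
  (countable_atomSet.mono inter_subset_left).measurableSet

lemma volume_atomsIn (Ω : Set ℂ) : volume (atomsIn Ω) = 0 :=
  (countable_atomSet.mono inter_subset_left).measure_zero _

lemma per_atomsIn {Ω : Set ℂ} (hb : Bornology.IsBounded Ω) : per planeMeas (atomsIn Ω) = 0 :=
  per_eq_zero_of_countable planeMeas (TopologicalSpace.denseSeq ℂ) _ inter_subset_left
    (measurableSet_atomsIn Ω) (planeMeas_lt_top (hb.subset inter_subset_right)).ne
    fun x _ => pointApprox_plane x

lemma volume_inter_le {Ω A : Set ℂ} (hb : Bornology.IsBounded Ω) (hΩ : MeasurableSet Ω)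
    (hA : MeasurableSet A) :
    volume (Ω ∩ A) ≤ ENNReal.ofReal (Metric.diam Ω) * volume (proj A) := by
  rw [volume_complex _ (hΩ.inter hA)]
  calc ∫⁻ x : ℝ, volume {y : ℝ | (⟨x, y⟩ : ℂ) ∈ Ω ∩ A}
      ≤ ∫⁻ x : ℝ, (proj A).indicator (fun _ => ENNReal.ofReal (Metric.diam Ω)) x := by
        refine lintegral_mono fun x => ?_
        by_cases hx : x ∈ proj A
        · rw [indicator_of_mem hx]
          refine (measure_mono (t := {y : ℝ | (⟨x, y⟩ : ℂ) ∈ Ω}) fun y hy => hy.1).trans ?_
          refine (Real.volume_le_diam _).trans ?_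
          refine Metric.ediam_le fun y hy z hz => ?_
          rw [edist_dist]
          refine ENNReal.ofReal_le_ofReal ?_
          rw [← (isometry_vert x).dist_eq]
          exact Metric.dist_le_diam_of_mem hb hy hz
        · rw [indicator_of_notMem hx]
          have h0 : volume {y : ℝ | (⟨x, y⟩ : ℂ) ∈ A} = 0 := by
            simpa [proj] using hx
          have : volume {y : ℝ | (⟨x, y⟩ : ℂ) ∈ Ω ∩ A} = 0 :=
            measure_mono_null (fun y hy => hy.2) h0
          rw [this]
    _ = _ := by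
        rw [lintegral_indicator (measurableSet_proj A hA)]
        simp

lemma volume_eq_zero_of_proj {A : Set ℂ} (hA : MeasurableSet A) (h : volume (proj A) = 0) :
    volume A = 0 := by
  rw [volume_complex A hA]
  have : ∀ᵐ x : ℝ, volume {y : ℝ | (⟨x, y⟩ : ℂ) ∈ A} = 0 := by
    have h' : ∀ᵐ x : ℝ, x ∉ proj A := by
      rw [ae_iff]; simpa using h
    filter_upwards [h'] with x hx
    simpa [proj] using hx
  rw [lintegral_congr_ae this]
  simp

lemma volume_Omega_le {Ω A : Set ℂ} :
    volume Ω ≤ volume (symmDiff Ω A) + volume (Ω ∩ A) := by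
  refine (measure_mono (t := symmDiff Ω A ∪ (Ω ∩ A)) ?_).trans (measure_union_le _ _)
  intro z hz
  by_cases h : z ∈ A
  · exact Or.inr ⟨hz, h⟩
  · exact Or.inl (Or.inl ⟨hz, h⟩)

lemma volume_A_le {Ω A : Set ℂ} :
    volume A ≤ volume (symmDiff Ω A) + volume Ω := by
  refine (measure_mono (t := symmDiff Ω A ∪ Ω) ?_).trans (measure_union_le _ _)
  intro z hz
  by_cases h : z ∈ Ω
  · exact Or.inr h
  · exact Or.inl (Or.inr ⟨hz, h⟩)

lemma lower_bound {Ω : Set ℂ} (ho : IsOpen Ω) (hb : Bornology.IsBounded Ω) {lam : ℝ}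
    (hl0 : 0 < lam) (hl : lam * Metric.diam Ω < 2) {A : Set ℂ} (hA : MeasurableSet A) :
    ENNReal.ofReal lam * volume Ω ≤ funMt planeMeas Ω lam A := by
  have hle : volume (symmDiff Ω A) ≤ planeMeas (symmDiff Ω A) := volume_le_planeMeas _
  unfold funMt
  by_cases hfin : volume A = ∞
  · have h1 : volume (symmDiff Ω A) = ∞ := by
      have h2 := volume_A_le (Ω := Ω) (A := A)
      rw [hfin, top_le_iff] at h2
      rcases ENNReal.add_eq_top.1 h2 with h | h
      · exact h
      · exact absurd h hb.measure_lt_top.ne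
    rw [h1, top_le_iff] at hle
    rw [hle, ENNReal.mul_top (ENNReal.ofReal_pos.2 hl0).ne']
    simp
  · have h1 := two_mul_proj_le_per planeMeas volume_le_planeMeas A hA hfin
    have h2 := volume_inter_le hb ho.measurableSet hA
    calc ENNReal.ofReal lam * volume Ω
        ≤ ENNReal.ofReal lam * (volume (symmDiff Ω A) + volume (Ω ∩ A)) := by
          gcongr; exact volume_Omega_le
      _ ≤ ENNReal.ofReal lam * (planeMeas (symmDiff Ω A) +
            ENNReal.ofReal (Metric.diam Ω) * volume (proj A)) := by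
          gcongr
      _ = ENNReal.ofReal (lam * Metric.diam Ω) * volume (proj A) +
            ENNReal.ofReal lam * planeMeas (symmDiff Ω A) := by
          rw [mul_add, ← mul_assoc, ← ENNReal.ofReal_mul hl0.le, add_comm]
      _ ≤ 2 * volume (proj A) + ENNReal.ofReal lam * planeMeas (symmDiff Ω A) := by
          gcongr
          rw [← ENNReal.ofReal_ofNat 2]
          exact ENNReal.ofReal_le_ofReal hl.le
      _ ≤ _ := by gcongr

lemma rigidity {Ω : Set ℂ} (ho : IsOpen Ω) (hb : Bornology.IsBounded Ω) {lam : ℝ}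
    (hl0 : 0 < lam) (hl : lam * Metric.diam Ω < 2) {A : Set ℂ} (hA : MeasurableSet A)
    (hle : funMt planeMeas Ω lam A ≤ ENNReal.ofReal lam * volume Ω) :
    volume A = 0 ∧ atoms (symmDiff Ω A) = 0 := by
  have hlne : ENNReal.ofReal lam ≠ 0 := (ENNReal.ofReal_pos.2 hl0).ne'
  have hVfin : ENNReal.ofReal lam * volume Ω ≠ ∞ :=
    ENNReal.mul_ne_top ENNReal.ofReal_ne_top hb.measure_lt_top.ne
  have hMfin : funMt planeMeas Ω lam A ≠ ∞ := ne_top_of_le_ne_top hVfin hle
  have hperfin : per planeMeas A ≠ ∞ :=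
    ne_top_of_le_ne_top hMfin (by unfold funMt; exact le_self_add)
  have hmfin : planeMeas (symmDiff Ω A) ≠ ∞ := by
    intro h
    apply hMfin
    unfold funMt
    rw [h, ENNReal.mul_top hlne]; simp
  have hvolfin : volume (symmDiff Ω A) ≠ ∞ :=
    ne_top_of_le_ne_top hmfin (volume_le_planeMeas _)
  have hAfin : volume A ≠ ∞ := by
    refine ne_top_of_le_ne_top ?_ (volume_A_le (Ω := Ω) (A := A))
    exact ENNReal.add_ne_top.2 ⟨hvolfin, hb.measure_lt_top.ne⟩
  have h1 := two_mul_proj_le_per planeMeas volume_le_planeMeas A hA hAfin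
  have h2 := volume_inter_le hb ho.measurableSet hA
  have h3 := volume_Omega_le (Ω := Ω) (A := A)
  have hPfin : volume (proj A) ≠ ∞ := by
    intro h
    rw [h] at h1
    apply hperfin
    rw [← top_le_iff]
    simpa using h1
  -- the chain of inequalities
  have hchain : 2 * volume (proj A) + ENNReal.ofReal lam * atoms (symmDiff Ω A) +
      ENNReal.ofReal lam * volume (symmDiff Ω A) ≤
      ENNReal.ofReal lam * (ENNReal.ofReal (Metric.diam Ω) * volume (proj A)) +
      ENNReal.ofReal lam * volume (symmDiff Ω A) := by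
    calc 2 * volume (proj A) + ENNReal.ofReal lam * atoms (symmDiff Ω A) +
        ENNReal.ofReal lam * volume (symmDiff Ω A)
        ≤ per planeMeas A + ENNReal.ofReal lam * atoms (symmDiff Ω A) +
          ENNReal.ofReal lam * volume (symmDiff Ω A) := by gcongr
      _ = funMt planeMeas Ω lam A := by
          unfold funMt planeMeas
          rw [Measure.add_apply, mul_add]
          ring
      _ ≤ ENNReal.ofReal lam * volume Ω := hle
      _ ≤ ENNReal.ofReal lam * (volume (symmDiff Ω A) +
            ENNReal.ofReal (Metric.diam Ω) * volume (proj A)) := by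
          gcongr
          exact h3.trans (by gcongr)
      _ = _ := by rw [mul_add, add_comm]
  have hlvfin : ENNReal.ofReal lam * volume (symmDiff Ω A) ≠ ∞ :=
    ENNReal.mul_ne_top ENNReal.ofReal_ne_top hvolfin
  have hchain2 := (ENNReal.add_le_add_iff_right hlvfin).1 hchain
  have hatfin : atoms (symmDiff Ω A) ≠ ∞ := measure_ne_top _ _
  -- pass to real numbers
  have hreal := ENNReal.toReal_mono (by
    exact ENNReal.mul_ne_top ENNReal.ofReal_ne_top
      (ENNReal.mul_ne_top ENNReal.ofReal_ne_top hPfin)) hchain2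
  rw [ENNReal.toReal_add (ENNReal.mul_ne_top (by simp) hPfin)
    (ENNReal.mul_ne_top ENNReal.ofReal_ne_top hatfin)] at hreal
  simp only [ENNReal.toReal_mul, ENNReal.toReal_ofReal hl0.le,
    ENNReal.toReal_ofReal Metric.diam_nonneg, ENNReal.toReal_ofNat] at hreal
  have hp : 0 ≤ (volume (proj A)).toReal := ENNReal.toReal_nonneg
  have ha : 0 ≤ (atoms (symmDiff Ω A)).toReal := ENNReal.toReal_nonneg
  have hla : 0 ≤ lam * (atoms (symmDiff Ω A)).toReal := mul_nonneg hl0.le ha
  have hp0 : (volume (proj A)).toReal = 0 := by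
    by_contra hne
    have hppos : 0 < (volume (proj A)).toReal := lt_of_le_of_ne hp (Ne.symm hne)
    nlinarith
  have ha0 : (atoms (symmDiff Ω A)).toReal = 0 := by
    rw [hp0] at hreal
    have : lam * (atoms (symmDiff Ω A)).toReal ≤ 0 := by nlinarith
    by_contra hne
    have hapos : 0 < (atoms (symmDiff Ω A)).toReal := lt_of_le_of_ne ha (Ne.symm hne)
    nlinarith [mul_pos hl0 hapos]
  refine ⟨volume_eq_zero_of_proj hA ?_, ?_⟩
  · exact ((ENNReal.toReal_eq_zero_iff _).1 hp0).resolve_right hPfin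
  · exact ((ENNReal.toReal_eq_zero_iff _).1 ha0).resolve_right hatfin

lemma no_closedRep {Ω : Set ℂ} (ho : IsOpen Ω) (hne : Ω.Nonempty) {A : Set ℂ}
    (hvol : volume A = 0) (hat : atoms (symmDiff Ω A) = 0) : ¬ HasClosedRep planeMeas A := by
  rintro ⟨C, hC, hAC⟩
  have hvolAC : volume (symmDiff A C) = 0 := by
    have := volume_le_planeMeas (symmDiff A C)
    rw [hAC] at this
    exact le_antisymm this bot_le
  have hatAC : atoms (symmDiff A C) = 0 := by
    have : atoms (symmDiff A C) ≤ planeMeas (symmDiff A C) := by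
      unfold planeMeas; rw [Measure.add_apply]; exact le_add_self
    rw [hAC] at this
    exact le_antisymm this bot_le
  have hsub : atomSet ∩ Ω ⊆ C := by
    rintro z ⟨hz, hzΩ⟩
    have hpos := atoms_singleton_pos hz
    have hzA : z ∈ A := by
      by_contra hzA
      have : atoms {z} ≤ atoms (symmDiff Ω A) :=
        measure_mono (singleton_subset_iff.2 (Or.inl ⟨hzΩ, hzA⟩))
      rw [hat] at this
      exact absurd hpos (not_lt.2 this)
    by_contra hzC
    have : atoms {z} ≤ atoms (symmDiff A C) :=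
      measure_mono (singleton_subset_iff.2 (Or.inl ⟨hzA, hzC⟩))
    rw [hatAC] at this
    exact absurd hpos (not_lt.2 this)
  have hΩC : Ω ⊆ C := by
    have h1 : Ω ⊆ closure (Ω ∩ atomSet) := dense_atomSet.open_subset_closure_inter ho
    refine h1.trans (closure_minimal ?_ hC)
    rwa [inter_comm]
  have h2 : volume Ω ≤ volume (symmDiff A C) + volume A := by
    refine (measure_mono (t := symmDiff A C ∪ A) ?_).trans (measure_union_le _ _)
    intro z hz
    by_cases h : z ∈ A
    · exact Or.inr h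
    · exact Or.inl (Or.inr ⟨hΩC hz, h⟩)
  rw [hvolAC, hvol, add_zero] at h2
  exact absurd (ho.measure_pos volume hne) (not_lt.2 h2)

lemma funMt_atomsIn {Ω : Set ℂ} (hb : Bornology.IsBounded Ω) (lam : ℝ) :
    funMt planeMeas Ω lam (atomsIn Ω) ≤ ENNReal.ofReal lam * volume Ω := by
  unfold funMt
  rw [per_atomsIn hb, zero_add]
  refine mul_le_mul' le_rfl ?_
  have hsd : symmDiff Ω (atomsIn Ω) ⊆ Ω \ atomSet := by
    rintro z (⟨h1, h2⟩ | ⟨h1, h2⟩)
    · exact ⟨h1, fun h => h2 ⟨h, h1⟩⟩
    · exact absurd h1.2 h2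
  calc planeMeas (symmDiff Ω (atomsIn Ω)) ≤ planeMeas (Ω \ atomSet) := measure_mono hsd
    _ = volume (Ω \ atomSet) + atoms (Ω \ atomSet) := by
        unfold planeMeas; rw [Measure.add_apply]
    _ ≤ volume Ω + 0 := by
        refine add_le_add (measure_mono sdiff_subset) ?_
        exact (measure_mono_null (fun z hz => hz.2) atoms_compl).le
    _ = volume Ω := add_zero _

end Pool.Agent.MP_fa2b2f_an
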