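import Pool.Agent.MP_fa2b2f_an.Basic

open MeasureTheory Filter Topology Set
open scoped ENNReal NNReal

namespace Pool.Agent.MP_fa2b2f_an

lemma isometry_vert (x : ℝ) : Isometry (fun t : ℝ => (⟨x, t⟩ : ℂ)) := by
  refine Isometry.of_dist_eq fun s t => ?_
  rw [Complex.dist_eq, Complex.norm_def, Complex.normSq_apply]
  simp [Real.dist_eq, Real.sqrt_mul_self_eq_abs]

lemma measurable_mk : Measurable (fun p : ℝ × ℝ => (⟨p.1, p.2⟩ : ℂ)) :=
  Complex.measurableEquivRealProd.symm.measurable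

lemma lintegral_complex (F : ℂ → ℝ≥0∞) (hF : Measurable F) :
    ∫⁻ z, F z = ∫⁻ x : ℝ, ∫⁻ y : ℝ, F ⟨x, y⟩ := by
  rw [← Complex.volume_preserving_equiv_real_prod.symm.lintegral_comp_emb
    Complex.measurableEquivRealProd.symm.measurableEmbedding]
  rw [Measure.volume_eq_prod, lintegral_prod]
  · rfl
  · exact (hF.comp Complex.measurableEquivRealProd.symm.measurable).aemeasurable

lemma ae_complex {p : ℂ → Prop} (h : ∀ᵐ z : ℂ, p z) : ∀ᵐ x : ℝ, ∀ᵐ y : ℝ, p ⟨x, y⟩ := by
  have h1 : ∀ᵐ q : ℝ × ℝ, p (Complex.measurableEquivRealProd.symm q) :=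
    Complex.volume_preserving_equiv_real_prod.symm.quasiMeasurePreserving.ae h
  rw [Measure.volume_eq_prod] at h1
  exact Measure.ae_ae_of_ae_prod h1

lemma volume_complex (A : Set ℂ) (hA : MeasurableSet A) :
    volume A = ∫⁻ x : ℝ, volume {y : ℝ | (⟨x, y⟩ : ℂ) ∈ A} := by
  have h := lintegral_complex (A.indicator fun _ => (1 : ℝ≥0∞)) (measurable_const.indicator hA)
  rw [lintegral_indicator hA] at h
  simp only [lintegral_const, one_mul, Measure.restrict_apply_univ] at h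
  rw [h]
  refine lintegral_congr fun x => ?_
  have hm : MeasurableSet {y : ℝ | (⟨x, y⟩ : ℂ) ∈ A} :=
    (isometry_vert x).continuous.measurable hA
  have : (fun y : ℝ => A.indicator (fun _ => (1 : ℝ≥0∞)) (⟨x, y⟩ : ℂ)) =
      ({y : ℝ | (⟨x, y⟩ : ℂ) ∈ A}).indicator fun _ => (1 : ℝ≥0∞) := by
    funext y
    by_cases hy : (⟨x, y⟩ : ℂ) ∈ A <;> simp [hy]
  rw [this, lintegral_indicator hm]
  simp

lemma measurable_slice (A : Set ℂ) (hA : MeasurableSet A) :
    Measurable fun x : ℝ => volume {y : ℝ | (⟨x, y⟩ : ℂ) ∈ A} := by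
  have : MeasurableSet ((fun p : ℝ × ℝ => (⟨p.1, p.2⟩ : ℂ)) ⁻¹' A) := measurable_mk hA
  exact measurable_measure_prodMk_left this

/-- The vertical projection of `A`, up to null slices. -/
def proj (A : Set ℂ) : Set ℝ := {x : ℝ | 0 < volume {y : ℝ | (⟨x, y⟩ : ℂ) ∈ A}}

lemma measurableSet_proj (A : Set ℂ) (hA : MeasurableSet A) : MeasurableSet (proj A) :=
  measurableSet_lt measurable_const (measurable_slice A hA)

lemma conv_compact {m : Measure ℂ} {g : ℕ → ℂ → ℝ} {f : ℂ → ℝ} (h : ConvL1Loc m univ g f)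
    {K : Set ℂ} (hK : IsCompact K) :
    Tendsto (fun n => ∫⁻ z in K, edist (g n z) (f z) ∂m) atTop (𝓝 0) := by
  refine hK.induction_on (p := fun s => Tendsto (fun n => ∫⁻ z in s, edist (g n z) (f z) ∂m)
    atTop (𝓝 0)) ?_ ?_ ?_ ?_
  · simp
  · intro s t hst ht
    exact tendsto_of_tendsto_of_tendsto_of_le_of_le tendsto_const_nhds ht (fun _ => bot_le)
      (fun _ => lintegral_mono_set hst)
  · intro s t hs ht
    have := hs.add ht
    rw [add_zero] at this
    exact tendsto_of_tendsto_of_tendsto_of_le_of_le tendsto_const_nhds this (fun _ => bot_le)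
      (fun _ => lintegral_union_le _ _ _)
  · intro x _
    obtain ⟨r, hr, ht⟩ := h x (mem_univ x)
    refine ⟨Metric.ball x r, mem_nhdsWithin_of_mem_nhds (Metric.ball_mem_nhds x hr), ?_⟩
    simpa using ht

lemma ae_tendsto_of_summable {h : ℕ → ℂ → ℝ≥0∞} (hmeas : ∀ n, Measurable (h n))
    (hbound : ∀ n : ℕ, ∫⁻ z in Metric.closedBall (0 : ℂ) n, h n z ≤ (1 / 2 : ℝ≥0∞) ^ n) :
    ∀ᵐ z : ℂ, Tendsto (fun n => h n z) atTop (𝓝 0) := by
  have key : ∀ R : ℕ, ∀ᵐ z : ℂ, z ∈ Metric.closedBall (0 : ℂ) R →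
      Tendsto (fun n => h n z) atTop (𝓝 0) := by
    intro R
    rw [← ae_restrict_iff' Metric.isClosed_closedBall.measurableSet]
    have h1 : ∫⁻ z in Metric.closedBall (0 : ℂ) R, ∑' n, h (n + R) z ≠ ∞ := by
      rw [lintegral_tsum fun n => (hmeas _).aemeasurable]
      refine ne_top_of_le_ne_top ?_ (ENNReal.tsum_le_tsum (g := fun n => (1 / 2 : ℝ≥0∞) ^ n) ?_)
      · rw [ENNReal.tsum_geometric]
        norm_num
      · intro n
        calc ∫⁻ z in Metric.closedBall (0 : ℂ) R, h (n + R) z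
            ≤ ∫⁻ z in Metric.closedBall (0 : ℂ) ((n + R : ℕ) : ℝ), h (n + R) z := by
              refine lintegral_mono_set (Metric.closedBall_subset_closedBall ?_)
              push_cast; linarith [Nat.cast_nonneg (α := ℝ) n]
          _ ≤ (1 / 2 : ℝ≥0∞) ^ (n + R) := hbound _
          _ ≤ (1 / 2 : ℝ≥0∞) ^ n := by
              refine pow_le_pow_right_of_le_one' ?_ (Nat.le_add_right _ _)
              norm_num
    have h2 := ae_lt_top (Measurable.tsum fun n => hmeas (n + R)) h1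
    filter_upwards [h2] with z hz
    have h3 := ENNReal.tendsto_atTop_zero_of_tsum_ne_top hz.ne
    exact (tendsto_add_atTop_iff_nat R).1 h3
  have hall := ae_all_iff.2 key
  filter_upwards [hall] with z hz
  obtain ⟨R, hR⟩ := exists_nat_ge ‖z‖
  exact hz R (by simpa using hR)

/-- The slicing lower bound for the perimeter. -/
lemma two_mul_proj_le_per (m : Measure ℂ) (hm : volume ≤ m) (A : Set ℂ) (hA : MeasurableSet A)
    (hfin : volume A ≠ ∞) : 2 * volume (proj A) ≤ per m A := by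
  refine le_per m A _ fun g hg hconv => ?_
  by_contra hlt
  rw [not_le] at hlt
  set f : ℂ → ℝ := A.indicator fun _ => (1 : ℝ) with hf
  have hfmeas : Measurable f := measurable_const.indicator hA
  have hgmeas : ∀ n, Measurable (g n) := fun n => (hg n).continuous.measurable
  obtain ⟨c, hc1, hc2⟩ := exists_between hlt
  have hfreq := frequently_lt_of_liminf_lt (by isBoundedDefault) hc1
  have hP : ∀ n : ℕ, ∃ᶠ k in atTop, (∫⁻ x, lipA (g k) x ∂m < c) ∧
      ∫⁻ z in Metric.closedBall (0 : ℂ) n, edist (g k z) (f z) ≤ (1 / 2 : ℝ≥0∞) ^ n := by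
    intro n
    have h1 := conv_compact hconv (isCompact_closedBall (0 : ℂ) (n : ℝ))
    have hpos : (0 : ℝ≥0∞) < (1 / 2 : ℝ≥0∞) ^ n := by
      refine ENNReal.pow_pos ?_ n
      norm_num
    have h2 : ∀ᶠ k in atTop, ∫⁻ z in Metric.closedBall (0 : ℂ) n, edist (g k z) (f z) ∂m <
        (1 / 2 : ℝ≥0∞) ^ n := h1.eventually_lt_const hpos
    refine hfreq.and_eventually (h2.mono fun k hk => ?_)
    exact (lintegral_mono' (Measure.restrict_mono subset_rfl hm) le_rfl).trans hk.le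
  obtain ⟨ψ, hψ, hψP⟩ := extraction_forall_of_frequently hP
  have hae : ∀ᵐ z : ℂ, Tendsto (fun n => edist (g (ψ n) z) (f z)) atTop (𝓝 0) :=
    ae_tendsto_of_summable (fun n => (hgmeas _).edist hfmeas) fun n => (hψP n).2
  have hae' := ae_complex hae
  have hslice : ∀ᵐ x : ℝ, volume {y : ℝ | (⟨x, y⟩ : ℂ) ∈ A} < ∞ := by
    refine ae_lt_top (measurable_slice A hA) ?_
    rw [← volume_complex A hA]
    exact hfin
  set G : ℕ → ℝ → ℝ≥0∞ := fun n x => ∫⁻ y : ℝ, lipA (g (ψ n)) ⟨x, y⟩ with hG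
  have hGmeas : ∀ n, Measurable (G n) := by
    intro n
    exact Measurable.lintegral_prod_right' (f := fun p : ℝ × ℝ => lipA (g (ψ n)) ⟨p.1, p.2⟩)
      ((measurable_lipA _).comp measurable_mk)
  have hkey : ∀ᵐ x : ℝ, x ∈ proj A → 2 ≤ liminf (fun n => G n x) atTop := by
    filter_upwards [hae', hslice] with x hx1 hx2 hx3
    have hAx : MeasurableSet {y : ℝ | (⟨x, y⟩ : ℂ) ∈ A} :=
      (isometry_vert x).continuous.measurable hA
    set S : Set ℝ := {y : ℝ | (⟨x, y⟩ : ℂ) ∈ A} with hS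
    have hx3' : 0 < volume S := hx3
    have hgood0 : volume {y : ℝ | ¬ Tendsto (fun n => edist (g (ψ n) ⟨x, y⟩) (f ⟨x, y⟩)) atTop
        (𝓝 0)} = 0 := hx1
    set N : Set ℝ := {y : ℝ | ¬ Tendsto (fun n => edist (g (ψ n) ⟨x, y⟩) (f ⟨x, y⟩)) atTop
        (𝓝 0)} with hN
    have hex : ∀ T : Set ℝ, volume N < volume T → ∃ y ∈ T, y ∉ N := by
      intro T hT
      by_contra hcon
      push Not at hcon
      exact absurd (measure_mono (μ := volume) (show T ⊆ N from hcon)) (not_le.2 hT)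
    obtain ⟨y0, hy0S, hy0N⟩ := hex S (by rw [hgood0]; exact hx3')
    have hIio : volume N < volume (Iio y0 \ S) := by
      rw [hgood0]
      by_contra hcon
      have h0 : volume (Iio y0 \ S) = 0 := by simpa using hcon
      have h1 : volume (Iio y0) ≤ volume (Iio y0 \ S) + volume S := by
        refine (measure_mono ?_).trans (measure_union_le _ _)
        intro t ht
        by_cases h : t ∈ S
        · exact Or.inr h
        · exact Or.inl ⟨ht, h⟩
      rw [h0, zero_add, Real.volume_Iio] at h1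
      exact absurd hx2 (not_lt.2 h1)
    have hIoi : volume N < volume (Ioi y0 \ S) := by
      rw [hgood0]
      by_contra hcon
      have h0 : volume (Ioi y0 \ S) = 0 := by simpa using hcon
      have h1 : volume (Ioi y0) ≤ volume (Ioi y0 \ S) + volume S := by
        refine (measure_mono ?_).trans (measure_union_le _ _)
        intro t ht
        by_cases h : t ∈ S
        · exact Or.inr h
        · exact Or.inl ⟨ht, h⟩
      rw [h0, zero_add, Real.volume_Ioi] at h1
      exact absurd hx2 (not_lt.2 h1)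
    obtain ⟨y1, ⟨hy1lt, hy1S⟩, hy1N⟩ := hex _ hIio
    obtain ⟨y2, ⟨hy2gt, hy2S⟩, hy2N⟩ := hex _ hIoi
    have hy1lt' : y1 < y0 := hy1lt
    have hy2gt' : y0 < y2 := hy2gt
    have hlim : ∀ y : ℝ, y ∉ N → Tendsto (fun n => g (ψ n) ⟨x, y⟩) atTop (𝓝 (f ⟨x, y⟩)) := by
      intro y hy
      rw [hN, mem_ofPred_eq, not_not] at hy
      exact tendsto_iff_edist_tendsto_0.2 hy
    have hl0 := hlim y0 hy0N
    have hl1 := hlim y1 hy1N
    have hl2 := hlim y2 hy2N
    have hf0 : f ⟨x, y0⟩ = 1 := by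
      simp only [hf]; exact indicator_of_mem (show (⟨x, y0⟩ : ℂ) ∈ A from hy0S) _
    have hf1 : f ⟨x, y1⟩ = 0 := by
      simp only [hf]; exact indicator_of_notMem (show (⟨x, y1⟩ : ℂ) ∉ A from hy1S) _
    have hf2 : f ⟨x, y2⟩ = 0 := by
      simp only [hf]; exact indicator_of_notMem (show (⟨x, y2⟩ : ℂ) ∉ A from hy2S) _
    rw [hf0] at hl0
    rw [hf1] at hl1
    rw [hf2] at hl2
    have hlow : ∀ n, ENNReal.ofReal |g (ψ n) ⟨x, y0⟩ - g (ψ n) ⟨x, y1⟩| +
        ENNReal.ofReal |g (ψ n) ⟨x, y2⟩ - g (ψ n) ⟨x, y0⟩| ≤ G n x := by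
      intro n
      have hu : LocallyLipschitz (fun t : ℝ => g (ψ n) ⟨x, t⟩) :=
        (hg (ψ n)).comp (isometry_vert x).lipschitz.locallyLipschitz
      have e1 := ofReal_abs_sub_le_lintegral_lipA hu hy1lt'.le
      have e2 := ofReal_abs_sub_le_lintegral_lipA hu hy2gt'.le
      calc _ ≤ (∫⁻ t in Ioc y1 y0, lipA (fun t : ℝ => g (ψ n) ⟨x, t⟩) t) +
            ∫⁻ t in Ioc y0 y2, lipA (fun t : ℝ => g (ψ n) ⟨x, t⟩) t := add_le_add e1 e2
        _ = ∫⁻ t in Ioc y1 y0 ∪ Ioc y0 y2, lipA (fun t : ℝ => g (ψ n) ⟨x, t⟩) t := by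
            rw [lintegral_union measurableSet_Ioc]
            exact Ioc_disjoint_Ioc_of_le le_rfl
        _ ≤ ∫⁻ t, lipA (fun t : ℝ => g (ψ n) ⟨x, t⟩) t := setLIntegral_le_lintegral _ _
        _ ≤ G n x := lintegral_mono fun t => lipA_comp_isometry (g (ψ n)) (isometry_vert x) t
    have ht : Tendsto (fun n => ENNReal.ofReal |g (ψ n) ⟨x, y0⟩ - g (ψ n) ⟨x, y1⟩| +
        ENNReal.ofReal |g (ψ n) ⟨x, y2⟩ - g (ψ n) ⟨x, y0⟩|) atTop (𝓝 2) := by
      have t1 := ENNReal.tendsto_ofReal ((hl0.sub hl1).abs)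
      have t2 := ENNReal.tendsto_ofReal ((hl2.sub hl0).abs)
      have t3 := t1.add t2
      have e : ENNReal.ofReal |(1 : ℝ) - 0| + ENNReal.ofReal |(0 : ℝ) - 1| = 2 := by
        norm_num
      rwa [e] at t3
    rw [← ht.liminf_eq]
    exact liminf_le_liminf (Eventually.of_forall hlow)
  have hfatou : ∫⁻ x, liminf (fun n => G n x) atTop ≤ liminf (fun n => ∫⁻ x, G n x) atTop :=
    lintegral_liminf_le hGmeas
  have hG2 : ∀ n, ∫⁻ x, G n x ≤ c := by
    intro n
    have : ∫⁻ x, G n x = ∫⁻ z : ℂ, lipA (g (ψ n)) z :=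
      (lintegral_complex _ (measurable_lipA _)).symm
    rw [this]
    exact (lintegral_mono' hm le_rfl).trans (hψP n).1.le
  have hfin2 : 2 * volume (proj A) ≤ c := by
    calc 2 * volume (proj A) = ∫⁻ _ in proj A, (2 : ℝ≥0∞) := by simp
      _ ≤ ∫⁻ x in proj A, liminf (fun n => G n x) atTop := by
          refine setLIntegral_mono_ae' (measurableSet_proj A hA) ?_
          filter_upwards [hkey] with x hx hxp using hx hxp
      _ ≤ ∫⁻ x, liminf (fun n => G n x) atTop := setLIntegral_le_lintegral _ _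
      _ ≤ liminf (fun n => ∫⁻ x, G n x) atTop := hfatou
      _ ≤ c := by
          refine liminf_le_of_frequently_le' ?_
          exact Frequently.of_forall hG2
  exact absurd hc2 (not_lt.2 hfin2)

end Pool.Agent.MP_fa2b2f_an
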